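import Mathlib
import Pool.Agent.X126.GQSat

namespace Pool.Agent.Results.MP_7874c9_co.AllLargeOrders
open Pool.Agent.X126.GQField Pool.Agent.X126.GQSat SimpleGraph

/-- `G` is `C_6`-saturated: it contains no six-cycle, but adding any missing edge creates one. -/
def Saturated {V : Type*} (G : SimpleGraph V) : Prop :=
  ¬ (cycleGraph 6) ⊑ G ∧
    ∀ u v : V, u ≠ v → ¬ G.Adj u v → (cycleGraph 6) ⊑ (G ⊔ SimpleGraph.edge u v)

/-- the number of (unlabelled) subgraphs of `G` isomorphic to `C_4` -/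
noncomputable def numC4 {V : Type*} (G : SimpleGraph V) : ℕ :=
  Nat.card {H : G.Subgraph // Nonempty (H.coe ≃g cycleGraph 4)}

/-- `sat(n, C_4, C_6)` -/
noncomputable def sat (n : ℕ) : ℕ :=
  sInf {c : ℕ | ∃ G : SimpleGraph (Fin n), Saturated G ∧ c = numC4 G}

theorem copy_of {V : Type*} {k : ℕ} (K : SimpleGraph V) (g : Fin (k + 2) → V)
    (hg : Function.Injective g) (h : ∀ a, K.Adj (g a) (g (a + 1))) :
    (cycleGraph (k + 2)) ⊑ K := by
  refine ⟨⟨⟨g, ?_⟩, hg⟩⟩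
  intro a b hab
  rw [cycleGraph_adj] at hab
  rcases hab with e | e
  · have : a = b + 1 := sub_eq_iff_eq_add'.1 e
    rw [this]
    exact (h b).symm
  · have : b = a + 1 := sub_eq_iff_eq_add'.1 e
    rw [this]
    exact h a

theorem of_copy {V : Type*} {k : ℕ} {K : SimpleGraph V} (h : (cycleGraph (k + 2)) ⊑ K) :
    ∃ g : Fin (k + 2) → V, Function.Injective g ∧ ∀ a, K.Adj (g a) (g (a + 1)) := by
  obtain ⟨f⟩ := h
  refine ⟨f.toHom, f.injective', fun a => f.toHom.map_adj ?_⟩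
  rw [cycleGraph_adj]
  exact Or.inr (add_sub_cancel_left a 1)

/-- From a finite relation to a saturated graph on `n` vertices. -/
theorem build {W : Type} [Fintype W] [DecidableEq W] (R : W → W → Prop)
    (hsym : ∀ u v, R u v → R v u)
    (h4 : ∀ u0 u1 u2 u3, R u0 u1 → R u1 u2 → R u2 u3 → R u3 u0 → u0 ≠ u2 → u1 ≠ u3 → False)
    (h6 : ∀ u0 u1 u2 u3 u4 u5, R u0 u1 → R u1 u2 → R u2 u3 → R u3 u4 → R u4 u5 → R u5 u0 →
      u0 ≠ u2 → u0 ≠ u4 → u1 ≠ u5 → False)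
    (A : Finset W) (hA : ∀ u v, ¬ R u v → Path5 R (A : Set W) u v) (n : ℕ)
    (hn1 : A.card ≤ n) (hn2 : n ≤ Fintype.card W) :
    ∃ G : SimpleGraph (Fin n), Saturated G ∧ ¬ (cycleGraph 4) ⊑ G := by
  obtain ⟨B, hAB, _, hB⟩ := Finset.exists_subsuperset_card_eq (Finset.subset_univ A) hn1
    (by rwa [Finset.card_univ])
  let e : B ≃ Fin n := Fintype.equivFinOfCardEq (by rw [Fintype.card_coe, hB])
  let φ : Fin n → W := fun i => (e.symm i : W)
  have hφ : Function.Injective φ := fun i j h => e.symm.injective (Subtype.ext h)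
  have hφs : ∀ x ∈ A, ∃ i, φ i = x := fun x hx =>
    ⟨e ⟨x, hAB hx⟩, by simp [φ]⟩
  let G : SimpleGraph (Fin n) :=
    { Adj := fun i j => i ≠ j ∧ R (φ i) (φ j)
      symm := ⟨fun i j h => ⟨h.1.symm, hsym _ _ h.2⟩⟩
      loopless := ⟨fun i h => h.1 rfl⟩ }
  refine ⟨G, ⟨?_, ?_⟩, ?_⟩
  · intro hc
    obtain ⟨g, hg, ha⟩ := of_copy (k := 4) hc
    have r : ∀ a, R (φ (g a)) (φ (g (a + 1))) := fun a => (ha a).2
    have ne : ∀ a b : Fin 6, a ≠ b → φ (g a) ≠ φ (g b) := fun a b h h' => h (hg (hφ h'))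
    exact h6 _ _ _ _ _ _ (r 0) (r 1) (r 2) (r 3) (r 4) (r 5) (ne 0 2 (by decide))
      (ne 0 4 (by decide)) (ne 1 5 (by decide))
  · intro i j hij hadj
    have hR : ¬ R (φ i) (φ j) := fun h => hadj ⟨hij, h⟩
    obtain ⟨x1, m1, x2, m2, x3, m3, x4, m4, r1, r2, r3, r4, r5, ⟨d1, d2, d3, d4⟩,
      ⟨d5, d6, d7, d8⟩, ⟨d9, d10, d11⟩, ⟨d12, d13⟩, d14⟩ := hA _ _ hR
    obtain ⟨y1, rfl⟩ := hφs x1 (Finset.mem_coe.1 m1)
    obtain ⟨y2, rfl⟩ := hφs x2 (Finset.mem_coe.1 m2)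
    obtain ⟨y3, rfl⟩ := hφs x3 (Finset.mem_coe.1 m3)
    obtain ⟨y4, rfl⟩ := hφs x4 (Finset.mem_coe.1 m4)
    have ne : ∀ {a b : Fin n}, φ a ≠ φ b → a ≠ b := fun h h' => h (by rw [h'])
    have e1 := ne d1
    have e2 := ne d2
    have e3 := ne d3
    have e4 := ne d4
    have e5 := ne d5
    have e6 := ne d6
    have e7 := ne d7
    have e8 := ne d8
    have e9 := ne d9
    have e10 := ne d10
    have e11 := ne d11
    have e12 := ne d12
    have e13 := ne d13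
    have e14 := ne d14
    apply copy_of (k := 4) _ ![i, y1, y2, y3, y4, j]
    · intro a b hab
      fin_cases a <;> fin_cases b <;> simp at hab ⊢ <;>
        first
        | exact absurd hab (by assumption)
        | exact absurd hab.symm (by assumption)
    · intro a
      fin_cases a
      · exact Or.inl ⟨e1, r1⟩
      · exact Or.inl ⟨e5, r2⟩
      · exact Or.inl ⟨e9, r3⟩
      · exact Or.inl ⟨e12, r4⟩
      · exact Or.inl ⟨e14, r5⟩
      · refine Or.inr ?_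
        rw [edge_adj]
        exact ⟨Or.inr ⟨rfl, rfl⟩, hij.symm⟩
  · intro hc
    obtain ⟨g, hg, ha⟩ := of_copy (k := 2) hc
    have r : ∀ a, R (φ (g a)) (φ (g (a + 1))) := fun a => (ha a).2
    have ne : ∀ a b : Fin 4, a ≠ b → φ (g a) ≠ φ (g b) := fun a b h h' => h (hg (hφ h'))
    exact h4 _ _ _ _ (r 0) (r 1) (r 2) (r 3) (ne 0 2 (by decide)) (ne 1 3 (by decide))

theorem main (n : ℕ) (hn : 2 ^ 87 ≤ n) :
    ∃ G : SimpleGraph (Fin n), Saturated G ∧ ¬ (cycleGraph 4) ⊑ G := by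
  classical
  have hex : ∃ e : ℕ, n ≤ 2 ^ (3 * (2 * e + 31)) := by
    refine ⟨n, (Nat.lt_two_pow_self (n := n)).le.trans ?_⟩
    exact Nat.pow_le_pow_right (by norm_num) (by omega)
  obtain ⟨e, he1, he2⟩ : ∃ e : ℕ, n ≤ 2 ^ (3 * (2 * e + 31)) ∧
      2 ^ (3 * (2 * e + 31 - 2)) ≤ n := by
    refine ⟨Nat.find hex, Nat.find_spec hex, ?_⟩
    rcases Nat.eq_zero_or_pos (Nat.find hex) with h | h
    · rw [h]; exact hn
    · have := Nat.find_min hex (m := Nat.find hex - 1) (by omega)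
      rw [not_le] at this
      refine le_trans (Nat.pow_le_pow_right (by norm_num) (by omega)) this.le
  let m := 2 * e + 31
  have hm0 : m ≠ 0 := by omega
  let F := GaloisField 2 m
  have : Fintype F := Fintype.ofFinite F
  have hq : Fintype.card F = 2 ^ m := by
    rw [← Nat.card_eq_fintype_card]
    exact GaloisField.card 2 m hm0
  let σ : F ≃+* F := iterateFrobeniusEquiv F 2 (e + 16)
  have hσ : ∀ x, σ (σ x) = x ^ 2 := by
    intro x
    simp only [σ, iterateFrobeniusEquiv_def]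
    rw [← pow_mul, ← pow_add]
    have h1 : 2 ^ (e + 16 + (e + 16)) = Fintype.card F * 2 := by
      rw [hq, ← pow_succ]; congr 1; omega
    rw [h1, pow_mul, FiniteField.pow_card]
  obtain ⟨A, hA1, hA2⟩ := small_set σ hσ m hq (by omega)
  refine build (Inc σ) (fun _ _ h => h.symm) (fun _ _ _ _ => no4) (fun _ _ _ _ _ _ => no6 hσ)
    A hA2 n (hA1.trans he2) ?_
  rw [Fintype.card_prod, Fintype.card_prod, hq, ← pow_add, ← pow_add]
  refine he1.trans (le_of_eq ?_)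
  congr 1
  omega

theorem sat_eq_zero (n : ℕ) (hn : 2 ^ 87 ≤ n) : sat n = 0 := by
  obtain ⟨G, hG, h4⟩ := main n hn
  have h0 : numC4 G = 0 := by
    unfold numC4
    have : IsEmpty {H : G.Subgraph // Nonempty (H.coe ≃g cycleGraph 4)} := by
      refine ⟨fun H => ?_⟩
      obtain ⟨H, ⟨f⟩⟩ := H
      apply h4
      exact ⟨⟨H.hom.comp f.symm.toHom, fun a b h => f.symm.injective (H.hom_injective h)⟩⟩
    exact Nat.card_of_isEmpty
  exact Nat.le_zero.1 (Nat.sInf_le ⟨G, hG, h0.symm⟩)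

/-- For every `n ≥ 2^87` there is a `C_6`-saturated graph on `n` vertices without `C_4`;
hence `sat(n, C_4, C_6) = 0` for all these `n` and `sat(n, C_4, C_6) > 0` holds only for finitely
many `n`: the answer to the question is no. -/
theorem result :
    (∀ n : ℕ, 2 ^ 87 ≤ n → ∃ G : SimpleGraph (Fin n), Saturated G ∧ ¬ (cycleGraph 4) ⊑ G) ∧
    (∀ n : ℕ, 2 ^ 87 ≤ n → sat n = 0) ∧
    ¬ {n : ℕ | 0 < sat n}.Infinite ∧
    ¬ {n : ℕ | ∀ G : SimpleGraph (Fin n), Saturated G → (cycleGraph 4) ⊑ G}.Infinite := by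
  refine ⟨main, sat_eq_zero, ?_, ?_⟩
  · rw [Set.not_infinite]
    refine (Set.finite_Iio (2 ^ 87)).subset ?_
    intro n hn
    by_contra h
    have h1 := sat_eq_zero n (not_lt.1 h)
    rw [Set.mem_ofPred_eq, h1] at hn
    exact lt_irrefl 0 hn
  · rw [Set.not_infinite]
    refine (Set.finite_Iio (2 ^ 87)).subset ?_
    intro n hn
    by_contra h
    obtain ⟨G, hG, h4⟩ := main n (not_lt.1 h)
    exact h4 (hn G hG)

end Pool.Agent.Results.MP_7874c9_co.AllLargeOrders
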